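import Pool.Agent.H992.SF.Defs

/-!
# Near invariance in a random frame
-/

set_option autoImplicit false
open MeasureTheory Filter Topology Complex
open scoped ContDiff

namespace Pool.Agent.H588.SF

open Pool.Agent.W745.RW (TF)
open Pool.Agent.Y265.RW (int_mul)
open Pool.Agent.N661.BH (HP mv)
open Pool.Agent.N814.BHM
open Pool.Agent.N814.BHASM
open Pool.Agent.N40.BRSTATH
open Pool.Agent.H992.LB (eX SX pt sum_pt eX_ex mapDomain_sum)
open Pool.Agent.H992.SF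

variable {d : ℕ} {Ω : Set ℂ} {lam : Fin d → ℕ → ℝ} {u : Fin d → ℕ → ℂ → ℝ}

theorem tf_cmul {Ω : Set ℂ} {χ : ℂ → ℝ} (h : TF Ω χ) (C : ℝ) : TF Ω (fun z => C * χ z) :=
  ⟨contDiff_const.mul h.1, h.2.1.mul_left, (tsupport_mul_subset_right).trans h.2.2⟩

theorem tf_add {Ω : Set ℂ} {φ χ : ℂ → ℝ} (h : TF Ω φ) (h' : TF Ω χ) :
    TF Ω (fun z => φ z + χ z) :=
  ⟨h.1.add h'.1, h.2.1.add h'.2.1, (tsupport_add φ χ).trans (Set.union_subset h.2.2 h'.2.2)⟩

/-- near invariance in a fixed frame, all test functions -/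
theorem claim_gen (hc : S_CLAIM) (H : ∀ i, Hyp Ω (lam i) (u i)) (i₀ : Fin d)
    (S : Finset (Fin d)) (hS : ∀ i ∈ S, Tendsto (fun n => lam i n / lam i₀ n) atTop (𝓝 0))
    {ψ : ℂ → ℝ} (hψ : TF Ω ψ) {k' : ℕ} (s : Fin k' → ℝ) (y' : Fin k' → ℂ) (x : ℂ) {k : ℕ}
    (t : Fin d → Fin k → ℝ) (y : Fin d → Fin k → ℂ) :
    Tendsto (fun n => ∫ z, (ψ z : ℂ) * ((Fy (1 / √(lam i₀ n)) (u i₀ n) s (fun j => y' j + x) z -
      Fy (1 / √(lam i₀ n)) (u i₀ n) s y' z) *
      ∏ i ∈ S, Fy (1 / √(lam i n)) (u i n) (t i) (y i) z)) atTop (𝓝 0) := by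
  obtain ⟨C, hC⟩ := hψ.1.continuous.bounded_above_of_compact_support hψ.2.1
  have hC0 : 0 ≤ C := (norm_nonneg _).trans (hC 0)
  obtain ⟨χ, h1, h2, h3, h4⟩ := Pool.Agent.Y265.RW.cutoff (H i₀).op hψ.2.1.isCompact hψ.2.2
  have hχ : TF Ω (fun z => C * χ z) := tf_cmul h1 C
  have hs : TF Ω (fun z => ψ z + C * χ z) := tf_add hψ hχ
  have n1 : ∀ z, 0 ≤ C * χ z := fun z => mul_nonneg hC0 (h2 z)
  have n2 : ∀ z, 0 ≤ ψ z + C * χ z := by
    intro z
    by_cases hz : z ∈ tsupport ψ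
    · rw [h4 z hz, mul_one]
      have := hC z
      rw [Real.norm_eq_abs, abs_le] at this
      linarith [this.1]
    · rw [image_eq_zero_of_notMem_tsupport hz, zero_add]
      exact n1 z
  have l1 := hc d Ω lam u H i₀ S hS _ hs n2 k' s y' x k t y
  have l2 := hc d Ω lam u H i₀ S hS _ hχ n1 k' s y' x k t y
  have l3 := l1.sub l2
  rw [sub_zero] at l3
  refine l3.congr' ?_
  filter_upwards [eventually_all.2 fun j => small (H i₀) (y' j),
    eventually_all.2 fun j => small (H i₀) (y' j + x),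
    eventually_all.2 fun i => eventually_all.2 fun j => small (H i) (y i j)] with n a1 a2 a3
  have hp : ∀ i, (0:ℝ) ≤ 1 / √(lam i n) := fun i => by positivity
  have c0 := Fy_cont ((H i₀).sm n) s (h := 1 / √(lam i₀ n)) (y := y')
    fun j => pos_of_small (hp i₀) (a1 j)
  have c1 := Fy_cont ((H i₀).sm n) s (h := 1 / √(lam i₀ n)) (y := fun j => y' j + x)
    fun j => pos_of_small (hp i₀) (a2 j)
  have c2 : ContinuousOn (fun z => ∏ i ∈ S, Fy (1 / √(lam i n)) (u i n) (t i) (y i) z) HP :=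
    continuousOn_finsetProd S fun i _ => Fy_cont ((H i).sm n) (t i) (h := 1 / √(lam i n))
      (y := y i) fun j => pos_of_small (hp i) (a3 i j)
  have c3 := (c1.sub c0).mul c2
  have i1 := int_mul HP_open (⟨hs.1, hs.2.1, hs.2.2.trans (H i₀).sub⟩ : TF HP _) c3
  have i2 := int_mul HP_open (⟨hχ.1, hχ.2.1, hχ.2.2.trans (H i₀).sub⟩ : TF HP _) c3
  have e := integral_sub i1 i2
  refine e.symm.trans (integral_congr_ae (Eventually.of_forall fun z => ?_))
  simp only [Pi.sub_apply, Pi.mul_apply]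
  push_cast
  ring

theorem inner (hc : S_CLAIM) (H : ∀ i, Hyp Ω (lam i) (u i)) (i₀ : Fin d)
    (S : Finset (Fin d)) (hS : ∀ i ∈ S, Tendsto (fun n => lam i n / lam i₀ n) atTop (𝓝 0))
    {ψ : ℂ → ℝ} (hψ : TF Ω ψ) {k' : ℕ} (s : Fin k' → ℝ) (w' : Fin k' → ℂ) (x : ℂ) {k : ℕ}
    (t : Fin d → Fin k → ℝ) (w : Fin d → Fin k → ℂ) (q : ℝ × Bool) :
    Tendsto (fun n => ∫ z, (ψ z : ℂ) *
      ((ex (lam i₀ n) (u i₀ n) (fun j => (s j : ℂ)) (fun j => w' j + x) (z, q) -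
        ex (lam i₀ n) (u i₀ n) (fun j => (s j : ℂ)) w' (z, q)) *
      ∏ i ∈ S, ex (lam i n) (u i n) (fun j => (t i j : ℂ)) (w i) (z, q)) ∂(Pz Ω)) atTop
      (𝓝 0) := by
  have hsm : ∀ᶠ n in atTop, ∀ j, 1 / √(lam i₀ n) * ‖w' j‖ < 1 :=
    Filter.eventually_all.2 fun j => small (H i₀) (w' j)
  have hsm2 : ∀ᶠ n in atTop, ∀ j, 1 / √(lam i₀ n) * ‖w' j + x‖ < 1 :=
    Filter.eventually_all.2 fun j => small (H i₀) (w' j + x)
  have hsm3 : ∀ᶠ n in atTop, ∀ i, ∀ j, 1 / √(lam i n) * ‖w i j‖ < 1 :=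
    Filter.eventually_all.2 fun i => Filter.eventually_all.2 fun j => small (H i) (w i j)
  obtain ⟨θ, b⟩ := q
  cases b
  · have h1 := (claim_gen hc H i₀ S hS (wt_tf (H i₀) hψ) s
      (fun j => E θ * starRingEnd ℂ (w' j)) (E θ * starRingEnd ℂ x) t
      (fun i j => E θ * starRingEnd ℂ (w i j))).const_mul (((mass Ω)⁻¹ : ℝ) : ℂ)
    rw [mul_zero] at h1
    refine h1.congr' ?_
    filter_upwards [hsm, hsm2, hsm3] with n hn hn2 hn3
    symm
    rw [convC (H i₀) hψ]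
    intro z hz
    rw [ex_false s _ hn ((H i₀).sub hz), ex_false s _ hn2 ((H i₀).sub hz),
      Finset.prod_congr rfl fun i _ => ex_false (t i) _ (hn3 i) ((H i₀).sub hz) θ]
    simp only [map_add, mul_add]
  · have h1 := (claim_gen hc H i₀ S hS (wt_tf (H i₀) hψ) s
      (fun j => E θ * w' j) (E θ * x) t
      (fun i j => E θ * w i j)).const_mul (((mass Ω)⁻¹ : ℝ) : ℂ)
    rw [mul_zero] at h1
    refine h1.congr' ?_
    filter_upwards [hsm, hsm2, hsm3] with n hn hn2 hn3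
    symm
    rw [convC (H i₀) hψ]
    intro z hz
    rw [ex_true s _ hn ((H i₀).sub hz), ex_true s _ hn2 ((H i₀).sub hz),
      Finset.prod_congr rfl fun i _ => ex_true (t i) _ (hn3 i) ((H i₀).sub hz) θ]
    simp only [mul_add]

theorem outer (hc : S_CLAIM) (H : ∀ i, Hyp Ω (lam i) (u i)) (i₀ : Fin d)
    (S : Finset (Fin d)) (hS : ∀ i ∈ S, Tendsto (fun n => lam i n / lam i₀ n) atTop (𝓝 0))
    {ψ : ℂ → ℝ} (hψ : TF Ω ψ) {k' : ℕ} (s : Fin k' → ℝ) (w' : Fin k' → ℂ) (x : ℂ) {k : ℕ}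
    (t : Fin d → Fin k → ℝ) (w : Fin d → Fin k → ℂ) :
    Tendsto (fun n => ∫ p, (ψ p.1 : ℂ) *
      ((ex (lam i₀ n) (u i₀ n) (fun j => (s j : ℂ)) (fun j => w' j + x) p -
        ex (lam i₀ n) (u i₀ n) (fun j => (s j : ℂ)) w' p) *
      ∏ i ∈ S, ex (lam i n) (u i n) (fun j => (t i j : ℂ)) (w i) p) ∂(P Ω)) atTop
      (𝓝 0) := by
  have := probz (H i₀)
  have := probP (H i₀)
  obtain ⟨C, hC⟩ := hψ.1.continuous.bounded_above_of_compact_support hψ.2.1
  have hC0 : 0 ≤ C := (norm_nonneg _).trans (hC 0)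
  have hm : ∀ n, Measurable fun p : ℂ × (ℝ × Bool) => (ψ p.1 : ℂ) *
      ((ex (lam i₀ n) (u i₀ n) (fun j => (s j : ℂ)) (fun j => w' j + x) p -
        ex (lam i₀ n) (u i₀ n) (fun j => (s j : ℂ)) w' p) *
      ∏ i ∈ S, ex (lam i n) (u i n) (fun j => (t i j : ℂ)) (w i) p) := fun n =>
    (Complex.measurable_ofReal.comp (hψ.1.continuous.measurable.comp measurable_fst)).mul
      (((ex_meas ((H i₀).sm n) _ _).sub (ex_meas ((H i₀).sm n) _ _)).mul
        (Finset.measurable_fun_prod _ fun i _ => ex_meas ((H i).sm n) _ _))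
  have hb : ∀ n (p : ℂ × (ℝ × Bool)), ‖(ψ p.1 : ℂ) *
      ((ex (lam i₀ n) (u i₀ n) (fun j => (s j : ℂ)) (fun j => w' j + x) p -
        ex (lam i₀ n) (u i₀ n) (fun j => (s j : ℂ)) w' p) *
      ∏ i ∈ S, ex (lam i n) (u i n) (fun j => (t i j : ℂ)) (w i) p)‖ ≤ C * 2 := by
    intro n p
    rw [norm_mul, norm_mul, norm_prod, Finset.prod_eq_one fun i _ => ex_norm _ _ _ _ p, mul_one]
    refine mul_le_mul ?_ ?_ (norm_nonneg _) hC0
    · rw [Complex.norm_real]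
      exact hC _
    · refine (norm_sub_le _ _).trans ?_
      rw [ex_norm, ex_norm]
      norm_num
  have key := tendsto_integral_filter_of_dominated_convergence (μ := Q) (l := atTop)
    (F := fun n q => ∫ z, (ψ z : ℂ) *
      ((ex (lam i₀ n) (u i₀ n) (fun j => (s j : ℂ)) (fun j => w' j + x) (z, q) -
        ex (lam i₀ n) (u i₀ n) (fun j => (s j : ℂ)) w' (z, q)) *
      ∏ i ∈ S, ex (lam i n) (u i n) (fun j => (t i j : ℂ)) (w i) (z, q)) ∂(Pz Ω))
    (f := fun _ => 0)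
    (fun _ => C * 2) (Eventually.of_forall fun n =>
      ((hm n).stronglyMeasurable.integral_prod_left' (μ := Pz Ω)).aestronglyMeasurable)
    (Eventually.of_forall fun n => Eventually.of_forall fun q => by
      refine (norm_integral_le_of_norm_le (integrable_const (C * 2))
        (Eventually.of_forall fun z => hb n (z, q))).trans ?_
      simp) (integrable_const (C * 2))
    (Eventually.of_forall fun q => inner hc H i₀ S hS hψ s w' x t w q)
  rw [integral_zero] at key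
  refine key.congr fun n => ?_
  have hI : Integrable (fun p : ℂ × (ℝ × Bool) => (ψ p.1 : ℂ) *
      ((ex (lam i₀ n) (u i₀ n) (fun j => (s j : ℂ)) (fun j => w' j + x) p -
        ex (lam i₀ n) (u i₀ n) (fun j => (s j : ℂ)) w' p) *
      ∏ i ∈ S, ex (lam i n) (u i n) (fun j => (t i j : ℂ)) (w i) p)) (P Ω) :=
    Integrable.of_bound (hm n).aestronglyMeasurable (C * 2) (Eventually.of_forall fun p => hb n p)
  unfold P at hI ⊢
  exact (integral_prod_symm _ hI).symm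

theorem linv (h : S_CLAIM) : S_LINV := by
  intro d Ω lam u H i₀ S hS ψ hψ τ x k t w
  have h1 := outer h H i₀ S hS hψ (fun j => τ (pt τ j)) (pt τ) x t w
  refine h1.congr fun n => ?_
  refine integral_congr_ae (Eventually.of_forall fun p => ?_)
  have hs : eX (lam i₀ n) (u i₀ n) (τ.mapDomain (· + x)) p =
      ex (lam i₀ n) (u i₀ n) (fun j => ((τ (pt τ j) : ℝ) : ℂ)) (fun j => pt τ j + x) p := by
    unfold eX ex SX
    rw [mapDomain_sum τ x _ (fun _ => by simp) (fun _ _ _ => by push_cast; ring), sum_pt τ]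
  simp only
  rw [hs, eX_ex]
  ring

end Pool.Agent.H588.SF
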